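import Pool.Agent.MP_a43263_nt.UC.Maj
import Pool.Agent.MP_a43263_nt.UV.Count
import Pool.Agent.MP_a43263_nt.UC.Core

/-! The count for reduced representatives. -/

namespace Pool.Agent.MP_a43263_nt.VC

open Polynomial Matrix Finset UC

namespace Abs

lemma ok_mono {n c c' k : ℕ} {e : Fin n → ℤ} {x : ℕ × Mz n} (h : Ok c k e x) (hc : c ≤ c') :
    Ok c' k e x :=
  ⟨h.1, h.2.1.trans (Nat.mul_le_mul_right _ (Nat.pow_le_pow_right (by norm_num) hc)), h.2.2.1,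
    h.2.2.2.1, UC.Abs.box_mono h.2.2.2.2.1 (by omega), h.2.2.2.2.2⟩

lemma cover {α β : Type} [DecidableEq α] (W : Finset α) (R : Finset β) (P : β → α → Prop) (b : ℝ)
    (h1 : ∀ x ∈ W, ∃ y ∈ R, P y x)
    (h2 : ∀ y ∈ R, ∀ V : Finset α, (∀ x ∈ V, x ∈ W ∧ P y x) → (V.card : ℝ) ≤ b) :
    (W.card : ℝ) ≤ R.card * b := by
  classical
  have h3 : W ⊆ R.biUnion fun y => W.filter (P y) := fun x hx => by
    obtain ⟨y, hy, h⟩ := h1 x hx
    exact mem_biUnion.2 ⟨y, hy, mem_filter.2 ⟨hx, h⟩⟩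
  calc (W.card : ℝ) ≤ ((∑ y ∈ R, (W.filter (P y)).card : ℕ) : ℝ) := by
        exact_mod_cast (card_le_card h3).trans card_biUnion_le
    _ ≤ ∑ _y ∈ R, b := by
        push_cast
        exact sum_le_sum fun y hy => h2 y hy _ fun x hx => mem_filter.1 hx
    _ = _ := by simp

/-- Division by the unitriangular matrices, for all `D` at once. -/
lemma fib (hI : INVStmt) (n κ : ℕ) : ∃ (c : ℕ) (K : ℝ), κ ≤ c ∧ 0 < K ∧
    ∀ (k : ℕ) (e : Fin n → ℤ) (L : Mz n → Mz n → Prop) (P : ℕ → Prop) (S : Finset (ℕ × ℤ[X]))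
      (β : ℝ), Inv L → Monotone e → 0 ≤ β →
      (∀ x ∈ S, P x.1 ∧ Irr x.2 ∧ ∃ A T : Mz n, Pair A T ∧ T.charpoly = x.2 ∧ L A T ∧
        Box κ e A ∧ Ok κ k e (x.1, A * T)) →
      (∀ (A : Mz n) (W : Finset (ℕ × Mz n)), (∀ x ∈ W, P x.1 ∧ Ok c k e x ∧ Box c e A ∧
        ∃ T, x.2 = A * T ∧ Pair A T ∧ Irr T.charpoly ∧ L A T) → (W.card : ℝ) ≤ β) →
      (S.card : ℝ) ≤ K * (2 : ℝ) ^ (Pp e - Un e) * β := by
  classical
  obtain ⟨c, hU⟩ := uni chg n
  refine ⟨κ + c, 3 ^ (up n).card * 2 ^ ((κ + c) * (up n).card), by omega, by positivity,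
    fun k e L P S β hL he hβ hS hW => ?_⟩
  obtain ⟨WA, hA, hA'⟩ := box n ((κ + c : ℕ) : ℤ) e
  obtain ⟨WB, hB, -⟩ := box n (((κ + c : ℕ) : ℤ) + k) e
  set G : ℕ × Mz n × Mz n → Prop := fun y => P y.1 ∧ Ok (κ + c) k e (y.1, y.2.2) ∧
    Box ((κ + c : ℕ) : ℤ) e y.2.1 ∧
      ∃ T, y.2.2 = y.2.1 * T ∧ Pair y.2.1 T ∧ Irr T.charpoly ∧ L y.2.1 T with hG
  set W := (range (2 ^ k + 1) ×ˢ WA ×ˢ WB).filter G with hWd
  have h1 : (W.card : ℝ) ≤ WA.card * β := by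
    refine cover W WA (fun A y => y.2.1 = A) β
      (fun y hy => ⟨_, (mem_product.1 (mem_product.1 (mem_filter.1 hy).1).2).1, rfl⟩)
      fun A _ V hV => ?_
    rw [← card_image_of_injOn (f := fun y : ℕ × Mz n × Mz n => (y.1, y.2.2))]
    · refine hW A _ fun x hx => ?_
      obtain ⟨y, hy, rfl⟩ := mem_image.1 hx
      obtain ⟨a, rfl⟩ := hV y hy
      exact (mem_filter.1 a).2
    · intro y hy y' hy' h
      have a := (hV y hy).2.trans (hV y' hy').2.symm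
      simp only [Prod.mk.injEq] at h
      exact Prod.ext h.1 (Prod.ext a h.2)
  have h2 : (S.card : ℝ) * (2 : ℝ) ^ Un e ≤ W.card := by
    have a1 : S.card = ∑ D ∈ range (2 ^ k + 1), (S.filter fun x => x.1 = D).card :=
      card_eq_sum_card_fiberwise fun x hx => by
        obtain ⟨-, -, A, T, -, -, -, -, h⟩ := hS x hx
        exact mem_coe.2 (mem_range.2 (Nat.lt_succ_of_le h.2.2.1))
    have a2 : W.card = ∑ D ∈ range (2 ^ k + 1), (W.filter fun x => x.1 = D).card :=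
      card_eq_sum_card_fiberwise fun x hx => (mem_product.1 (mem_filter.1 hx).1).1
    rw [a1, a2]
    push_cast
    rw [sum_mul]
    refine sum_le_sum fun D hD => ?_
    rcases (S.filter fun x => x.1 = D).eq_empty_or_nonempty with h0 | ⟨x₀, h0⟩
    · rw [h0]
      simp
    obtain ⟨h5, rfl⟩ := mem_filter.1 h0
    obtain ⟨p0, -, A₀, T₀, -, -, -, -, o0⟩ := hS x₀ h5
    have hL' : Inv fun A T : Mz n => Irr T.charpoly ∧ Mn x₀.1 (A * T) ∧ L A T :=
      fun A T γ γ' h a => ⟨by rw [Chg.chp h]; exact a.1, hI.1 n _ A T γ γ' h a.2.1,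
        hL A T γ γ' h a.2.2⟩
    have := hU κ ((κ : ℤ) + k) e _ hL' he ((S.filter fun x => x.1 = x₀.1).image Prod.snd)
      ((W.filter fun x => x.1 = x₀.1).image Prod.snd) (fun f hf => by
        obtain ⟨x, hx, rfl⟩ := mem_image.1 hf
        obtain ⟨hx, e1⟩ := mem_filter.1 hx
        obtain ⟨-, b, A, T, b1, b2, b3, b4, b5⟩ := hS x hx
        exact ⟨b, A, T, b1, b2, ⟨b2 ▸ b, e1 ▸ b5.2.2.2.2.2, b3⟩, b4, b5.2.2.2.2.1⟩)
      (fun A T hP a b0 b1 => by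
        have b0' : Box ((κ + c : ℕ) : ℤ) e A := by push_cast; exact b0
        have b1' : Box (((κ + c : ℕ) : ℤ) + k) e (A * T) :=
          UC.Abs.box_mono b1 (by push_cast; omega)
        have o1 := ok_mono o0 (Nat.le_add_right κ c)
        refine mem_image.2 ⟨(x₀.1, A, A * T), mem_filter.2 ⟨mem_filter.2 ⟨mem_product.2
          ⟨hD, mem_product.2 ⟨hA A hP.1 b0', hB _ hP.2.2 b1'⟩⟩, p0,
          ⟨o1.1, o1.2.1, o1.2.2.1, hP.2.2, b1', a.2.1⟩, b0', T, rfl, hP, a.1, a.2.2⟩, rfl⟩, rfl⟩)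
    rw [card_image_of_injOn] at this
    · exact this.trans (by exact_mod_cast card_image_le)
    · intro y hy y' hy' h
      exact Prod.ext ((mem_filter.1 hy).2.trans (mem_filter.1 hy').2.symm) h
  have h3 : (WA.card : ℝ) ≤ 3 ^ (up n).card * 2 ^ ((κ + c) * (up n).card) * (2 : ℝ) ^ Pp e := by
    refine hA'.trans ?_
    rw [mul_assoc, ← zpow_natCast (2 : ℝ) ((κ + c) * _), ← zpow_add₀ two_ne_zero]
    gcongr
    · norm_num
    · exact UC.Abs.sum_shift (κ + c) e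
  have h4 : (0 : ℝ) < (2 : ℝ) ^ Un e := by positivity
  rw [zpow_sub₀ two_ne_zero, ← mul_div_assoc, div_mul_eq_mul_div, le_div_iff₀ h4]
  exact h2.trans (h1.trans (by gcongr))

end Abs

open Abs in
theorem abs (hI : INVStmt) (hS : SUMStmt) (hE : EXPStmt) (hP : STEPStmt) (hZ : TZStmt)
    (hR : TRStmt) (hB : BODYStmt) : ABSStmt := by
  classical
  intro g κ hg
  obtain ⟨c, K, hc, hK, hF⟩ := fib hI (2 * g + 2) κ
  set t : ℕ := 2 * c * (g + 1) with ht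
  obtain ⟨CZ, hCZ, hZ⟩ := hZ g c hg
  obtain ⟨CR, hCR, hR⟩ := hR g c t
  obtain ⟨CB, hCB, hB⟩ := hB g c
  obtain ⟨⟨CS, hCS, hS1⟩, hS2⟩ := hS g (c + 2 * t)
  refine ⟨K * CB * CS, by positivity, fun ε hε => ?_⟩
  set CT : ℝ := (2 * g + 2 : ℕ) * (CZ + CR) with hCT
  have hCT0 : 0 < CT := by positivity
  obtain ⟨m, hS2, hS3⟩ := hS2 (ε / (3 * K * CT)) (by positivity)
  refine ⟨m, fun L μ N D0 hL hμ hD hN hco => ?_⟩
  set ν : ℝ := μ * (N : ℝ) ^ (up (2 * g + 2)).card with hν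
  have hν0 : 0 ≤ ν := by positivity
  obtain ⟨k0, hB⟩ := hB N D0 (m + t) (ε / (3 * K * CS * (ν + 1))) hN hco (by positivity)
  refine ⟨k0, fun k S hk hS => ?_⟩
  set Z : ℝ := (2 ^ k) ^ (2 * g + 3) with hZd
  have hZ0 : 0 < Z := by positivity
  have hrep : ∀ x : ℕ × ℤ[X], ∃ e : Fin (2 * g + 2) → ℤ, x ∈ S → Ex e ∧
      (m : ℤ) ≤ k + 2 * e (mid g) ∧ x.1 ≡ D0 [MOD N] ∧ Irr x.2 ∧ ∃ A T : Mz (2 * g + 2),
        Pair A T ∧ T.charpoly = x.2 ∧ L A T ∧ Box κ e A ∧ Ok κ k e (x.1, A * T) := by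
    intro x
    by_cases hx : x ∈ S
    · obtain ⟨h1, h2, e, A, T, a1, a2, a3, a4, a5, a6, a7⟩ := hS x hx
      exact ⟨e, fun _ => ⟨a1, a7, h1, h2, A, T, a2, a3, a4, a5, a6⟩⟩
    · exact ⟨0, fun h => absurd h hx⟩
  choose ef hef using hrep
  set E := S.image ef with hEd
  set w : (Fin (2 * g + 2) → ℤ) → ℝ := fun e => ((S.filter fun x => ef x = e).card : ℝ) with hw
  have hE1 : ∀ e ∈ E, Ex e ∧ (m : ℤ) ≤ k + 2 * e (mid g) := fun e he => by
    obtain ⟨x, hx, rfl⟩ := mem_image.1 he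
    exact ⟨(hef x hx).1, (hef x hx).2.1⟩
  have hfib : ∀ e ∈ E, ∀ β : ℝ, 0 ≤ β → (∀ (A : Mz (2 * g + 2)) (W : Finset (ℕ × Mz (2 * g + 2))),
      (∀ x ∈ W, x.1 ≡ D0 [MOD N] ∧ Ok c k e x ∧ Box c e A ∧
        ∃ T, x.2 = A * T ∧ Pair A T ∧ Irr T.charpoly ∧ L A T) → (W.card : ℝ) ≤ β) →
      w e ≤ K * (2 : ℝ) ^ (Pp e - Un e) * β := fun e he β hβ h =>
    hF k e L (fun D => D ≡ D0 [MOD N]) _ β hL (hE1 e he).1.1 hβ (fun x hx => by
      obtain ⟨h1, rfl⟩ := mem_filter.1 hx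
      exact (hef x h1).2.2) h
  set b : ℝ := ν * ((CB / (N : ℝ) ^ ((up (2 * g + 2)).card + 1) + ε / (3 * K * CS * (ν + 1))) * Z)
    with hb
  have hb0 : 0 ≤ b := by positivity
  have s1 : ∀ e ∈ E, - e 0 ≤ ((m + t : ℕ) : ℤ) → w e ≤ K * b * (2 : ℝ) ^ e 0 := fun e he h0 => by
    refine (hfib e he b hb0 fun A W hW => ?_).trans ?_
    · rcases W.eq_empty_or_nonempty with rfl | ⟨x₀, hx₀⟩
      · simpa using hb0
      obtain ⟨-, -, -, T₀, -, p0, -⟩ := hW x₀ hx₀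
      obtain ⟨R, hR1, hR2⟩ := hD A p0.1 p0.2.1
      refine (cover W R (fun B₀ x => ∀ p q, (N : ℤ) ∣ x.2 p q - B₀ p q) _ (fun x hx => ?_)
        fun B₀ _ V hV => hB k e B₀ V hk (hE1 e he).1 h0 fun x hx =>
          ⟨(hW x (hV x hx).1).2.1, (hW x (hV x hx).1).1, (hV x hx).2⟩).trans
          (mul_le_mul_of_nonneg_right hR1 (by positivity))
      obtain ⟨-, -, -, T, a1, a2, -, a3⟩ := hW x hx
      rw [a1]
      exact hR2 T a2.2.2 a3
    · rw [mul_right_comm]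
      gcongr
      · norm_num
      · exact (hE g e (hE1 e he).1).2.2.1 hg
  have s2 : ∀ e ∈ E, ¬ - e 0 ≤ ((m + t : ℕ) : ℤ) → w e ≤ K * CT * Z *
      ((2 : ℝ) ^ e 0 + (√2 : ℝ) ^ (- ((k : ℤ) + 2 * e (mid g)))) := fun e he h0 => by
    set s : ℝ := (2 : ℝ) ^ e 0 + (√2 : ℝ) ^ (- ((k : ℤ) + 2 * e (mid g))) with hs
    have hs0 : 0 ≤ s := by positivity
    have hs1 : (2 : ℝ) ^ (- ((k : ℤ) + 2 * e (mid g))) ≤ s := by
      refine le_trans ?_ (le_add_of_nonneg_left (by positivity))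
      obtain ⟨j, hj⟩ := Int.eq_ofNat_of_zero_le ((Int.natCast_nonneg m).trans (hE1 e he).2)
      rw [hj, _root_.zpow_neg, _root_.zpow_neg, zpow_natCast, zpow_natCast]
      have : √2 ≤ (2 : ℝ) := Real.sqrt_le_iff.2 ⟨by norm_num, by norm_num⟩
      gcongr
    refine (hfib e he (CT * Z * (2 : ℝ) ^ (Un e - Pp e) * s) (by positivity)
      fun A W hW => ?_).trans (le_of_eq ?_)
    · refine (cover W univ (fun r x => r.1 ≤ g ∧ (∀ j, j < r → x.2 j j = 0) ∧ x.2 r r ≠ 0 ∧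
        e r - e 0 ≤ t) ((CZ + CR) * Z * (2 : ℝ) ^ (Un e - Pp e) * s) (fun x hx => ?_)
        fun r _ V hV => ?_).trans (le_of_eq ?_)
      · obtain ⟨-, a0, a1, T, a2, a3, a4, -⟩ := hW x hx
        rcases hP g c k x.1 e A T (hE1 e he).1 a3 a4 a1 (a2 ▸ a0) with h | ⟨r, h⟩
        · exact absurd (h.trans (by rw [← ht]; push_cast; omega)) h0
        · exact ⟨r, mem_univ _, a2 ▸ h⟩
      · rcases V.eq_empty_or_nonempty with rfl | ⟨x₀, hx₀⟩
        · simp only [card_empty, Nat.cast_zero]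
          positivity
        rcases Nat.eq_zero_or_pos r.1 with h | h
        · obtain rfl : r = 0 := Fin.ext h
          refine (hZ k e V (hE1 e he).1 fun x hx =>
            ⟨(hW x (hV x hx).1).2.1, (hV x hx).2.2.2.1⟩).trans ?_
          gcongr
          linarith
        · refine (hR k e r V (hE1 e he).1 h (hV x₀ hx₀).2.1 (hV x₀ hx₀).2.2.2.2 fun x hx =>
            ⟨(hW x (hV x hx).1).2.1, (hV x hx).2.2.1, (hV x hx).2.2.2.1⟩).trans ?_
          gcongr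
          linarith
      · rw [card_univ, Fintype.card_fin, hCT]
        ring
    · have : (2 : ℝ) ^ (Pp e - Un e) * (2 : ℝ) ^ (Un e - Pp e) = 1 := by
        rw [← zpow_add₀ two_ne_zero]
        simp
      linear_combination (K * CT * Z * s) * this
  have s3 : ∀ e ∈ E, ¬ - e 0 ≤ ((m + t : ℕ) : ℤ) → - 2 * e 0 ≤ k + (c + 2 * t : ℕ) := fun e he h0 => by
    obtain ⟨x, hx, rfl⟩ := mem_image.1 he
    obtain ⟨a0, -, -, a1, A, T, a2, a3, -, a4, a5⟩ := hef x hx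
    have a6 := ok_mono a5 hc
    rcases hP g c k x.1 _ A T a0 a2 (a3 ▸ a1) (UC.Abs.box_mono a4 (by omega)) a6 with
      h | ⟨r, -, -, h1, h2⟩
    · exact absurd (h.trans (by rw [← ht]; push_cast; omega)) h0
    · have h3 : ¬ (c : ℤ) + k + ef x r + ef x r < 0 := fun h =>
        h1 (IrrX.zero_of_box a6.2.2.2.2.1 h)
      rw [← ht] at h2
      push_cast
      omega
  have t1 : ∑ e ∈ E.filter (fun e => - e 0 ≤ ((m + t : ℕ) : ℤ)), w e ≤ K * b * CS := by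
    refine le_trans ?_ (mul_le_mul_of_nonneg_left (hS1 (E.filter fun e => - e 0 ≤ ((m + t : ℕ) : ℤ))
      fun e he => (hE1 e (mem_filter.1 he).1).1) (by positivity))
    rw [mul_sum]
    exact sum_le_sum fun e he => s1 e (mem_filter.1 he).1 (mem_filter.1 he).2
  have t2 : ∑ e ∈ E.filter (fun e => ¬ - e 0 ≤ ((m + t : ℕ) : ℤ)), w e ≤
      K * CT * Z * (ε / (3 * K * CT) + ε / (3 * K * CT)) := by
    refine le_trans ?_ (mul_le_mul_of_nonneg_left (add_le_add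
      (hS2 (E.filter fun e => ¬ - e 0 ≤ ((m + t : ℕ) : ℤ)) fun e he =>
        ⟨(hE1 e (mem_filter.1 he).1).1, by have := (mem_filter.1 he).2; push_cast at this; omega⟩)
      (hS3 k (E.filter fun e => ¬ - e 0 ≤ ((m + t : ℕ) : ℤ)) fun e he =>
        ⟨(hE1 e (mem_filter.1 he).1).1, s3 e (mem_filter.1 he).1 (mem_filter.1 he).2,
          (hE1 e (mem_filter.1 he).1).2⟩)) (by positivity))
    rw [← sum_add_distrib, mul_sum]
    exact sum_le_sum fun e he => s2 e (mem_filter.1 he).1 (mem_filter.1 he).2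
  have htot : (S.card : ℝ) = ∑ e ∈ E, w e := by
    rw [card_eq_sum_card_image ef S]; push_cast; rfl
  rw [htot, ← sum_filter_add_sum_filter_not E (fun e => - e 0 ≤ ((m + t : ℕ) : ℤ))]
  refine (add_le_add t1 t2).trans ?_
  have hN' : (0 : ℝ) < N := by exact_mod_cast hN
  have u1 : K * b * CS = (K * CB * CS * μ / N + ε / 3 * (ν / (ν + 1))) * Z := by
    rw [hb, hν]
    field_simp
    ring
  have u2 : K * CT * Z * (ε / (3 * K * CT) + ε / (3 * K * CT)) = 2 * ε / 3 * Z := by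
    field_simp
    ring
  have u3 : ε / 3 * (ν / (ν + 1)) ≤ ε / 3 :=
    mul_le_of_le_one_right (by positivity) ((div_le_one (by positivity)).2 (by linarith))
  rw [u1, u2, ← add_mul]
  exact mul_le_mul_of_nonneg_right (by linarith) hZ0.le

end Pool.Agent.MP_a43263_nt.VC
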