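import Pool.Agent.MP_a43263_nt.UC.Maj
import Pool.Agent.MP_a43263_nt.UV.Count

/-!
The exponent inequalities.
-/

namespace Pool.Agent.MP_a43263_nt.VC

open Finset UC UC.Exp

namespace Exp

variable {n : ℕ} {e : Fin n → ℤ}

theorem sum_rev (f : Fin n → ℤ) : ∑ p, f (Fin.rev p) = ∑ p, f p :=
  Equiv.sum_comp Fin.revPerm f

theorem sum_odd {f : Fin n → ℤ} (hf : ∀ p, f (Fin.rev p) = - f p) : ∑ p, f p = 0 := by
  have h := sum_rev f
  simp only [hf, sum_neg_distrib] at h
  omega

theorem diag (he : Ex e) : ∑ p, max (e p + e p) 0 = ∑ p, |e p| := by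
  have h : ∑ p, max (e p + e p) 0 = ∑ p, (|e p| + e p) :=
    sum_congr rfl fun p _ => by rw [abs_eq_max_neg]; omega
  rw [h, sum_add_distrib, sum_odd he.2, add_zero]

theorem all_zero (he : Ex e) : ∑ p, ∑ q, (e p + e q) = 0 := by
  simp only [sum_add_distrib, sum_odd he.2, ← sum_comm (f := fun _ p => e p), sum_const_zero,
    add_zero]

theorem key (he : Ex e) : 2 * Pp e - Un e = ∑ p, |e p| := by
  have h1 := sym_sum univ (fun p q : Fin n => max (e p + e q) 0) fun p q => by rw [add_comm]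
  have h2 := sum_up fun p q : Fin n => max (e p + e q) 0
  have h3 := sym_sum univ (fun p q : Fin n => |e q - e p|) fun p q => abs_sub_comm _ _
  have h4 := sum_sup fun p q : Fin n => e q - e p
  have h5 : (∑ p, ∑ q, if p < q then |e q - e p| else 0)
      = ∑ p, ∑ q, if p < q then e q - e p else 0 :=
    sum_congr rfl fun p _ => sum_congr rfl fun q _ => by
      split_ifs with h
      · exact abs_of_nonneg (sub_nonneg.2 (he.1 h.le))
      · rfl
  have h6 : ∑ p, ∑ q, |e p + e q| = ∑ p, ∑ q, |e q - e p| := by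
    rw [← sum_rev fun p => ∑ q, |e p + e q|]
    exact sum_congr rfl fun p _ => sum_congr rfl fun q _ => by rw [he.2, neg_add_eq_sub]
  have h7 : 2 * ∑ p, ∑ q, max (e p + e q) 0 = ∑ p, ∑ q, |e p + e q| + ∑ p, ∑ q, (e p + e q) := by
    simp only [mul_sum, ← sum_add_distrib]
    exact sum_congr rfl fun p _ => sum_congr rfl fun q _ => by rw [abs_eq_max_neg]; omega
  have h8 := diag he
  have h9 := all_zero he
  simp only [sub_self, abs_zero, sum_const_zero] at h3
  unfold Pp Un
  beta_reduce at h1 h2 h4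
  omega

theorem ps_eq (he : Ex e) (r : Fin n) :
    Ps r e = ∑ q, ((if r ≤ q then min (e r + e q) 0 else 0) + |e q|) := by
  have h1 := sum_filter_add_sum_filter_not (up n) (fun x => x.1 ≠ r)
    fun x => max (e x.1 + e x.2) 0
  have h2 : ∑ x ∈ (up n).filter (fun x => ¬ x.1 ≠ r), max (e x.1 + e x.2) 0
      = ∑ q ∈ Ici r, max (e r + e q) 0 := by
    refine (sum_bij (fun q _ => (r, q)) ?_ ?_ ?_ ?_).symm
    · intro q hq; simpa [up] using hq
    · intro q _ q' _ h; exact (Prod.ext_iff.1 h).2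
    · rintro ⟨p, q⟩ hx
      simp only [up, mem_filter, mem_univ, true_and, not_not] at hx
      obtain ⟨h, rfl⟩ := hx
      exact ⟨q, mem_Ici.2 h, rfl⟩
    · intro q _; rfl
  have h3 : (∑ q, if r ≤ q then min (e r + e q) 0 else 0) = ∑ q ∈ Ici r, min (e r + e q) 0 := by
    rw [← sum_filter]
    exact sum_congr (by ext q; simp) fun _ _ => rfl
  have h4 : ∑ q ∈ Ici r, (e r + e q)
      = ∑ q ∈ Ici r, min (e r + e q) 0 + ∑ q ∈ Ici r, max (e r + e q) 0 := by
    rw [← sum_add_distrib]
    exact sum_congr rfl fun q _ => by omega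
  have h5 := key he
  rw [sum_add_distrib, h3]
  unfold Ps
  unfold Pp at h5 ⊢
  omega

theorem low (he : Ex e) {i : Fin n} (hi : 2 * i.1 < n) : e i ≤ 0 := by
  have h1 : e i ≤ e (Fin.rev i) := he.1 (by rw [Fin.le_def, Fin.val_rev]; omega)
  rw [he.2] at h1
  omega

theorem ps_le {g : ℕ} {e : Fin (2 * g + 2) → ℤ} (he : Ex e) (r i : Fin (2 * g + 2)) (t : ℤ)
    (hr : r ≤ i) (hi : i.1 ≤ g) (ht : e r - e 0 ≤ t) :
    Ps r e ≤ 2 * r.1 * (t - e r) - 2 * (e i - e r) := by
  have hr' : r.1 ≤ i.1 := hr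
  have h0 : ∑ q, (if r ≤ q ∧ q ≤ Fin.rev r then e q else 0) = 0 := sum_odd fun q => by
    simp only [he.2, Fin.le_def, Fin.val_rev]
    split_ifs <;> omega
  have h1 : ∑ q, (if q < r then t - e r else 0) = r.1 * (t - e r) := by
    rw [← sum_filter, sum_const, show univ.filter (fun q => q < r) = Iio r by ext q; simp,
      Fin.card_Iio, nsmul_eq_mul]
  have h2 : ∑ q, (if Fin.rev r < q then t - e r else 0) = r.1 * (t - e r) := by
    rw [← h1, ← sum_rev]
    simp only [Fin.rev_lt_rev]
  have h3 : ∀ j : Fin (2 * g + 2), ∑ q, (if q = j then e i - e r else 0) = e i - e r := fun j => by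
    rw [sum_ite_eq', if_pos (mem_univ _)]
  have h4 : Ps r e ≤ ∑ q, ((if r ≤ q ∧ q ≤ Fin.rev r then e q else 0) +
      (if q < r then t - e r else 0) + (if Fin.rev r < q then t - e r else 0) -
      (if q = i then e i - e r else 0) - (if q = Fin.rev i then e i - e r else 0)) := by
    rw [ps_eq he]
    refine sum_le_sum fun q _ => ?_
    have a1 : e 0 ≤ e q := he.1 (Fin.zero_le _)
    have a2 : e 0 ≤ e (Fin.rev q) := he.1 (Fin.zero_le _)
    have a3 : r ≤ q → e r ≤ e q := fun h => he.1 h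
    have a4 : q ≤ Fin.rev r → e q ≤ e (Fin.rev r) := fun h => he.1 h
    have a5 : q = i → e q = e i := fun h => by rw [h]
    have a6 : q = Fin.rev i → e q = - e i := fun h => by rw [h, he.2]
    have a7 := low he (i := i) (by omega)
    rw [he.2] at a2 a4
    rw [abs_eq_max_neg]
    simp only [Fin.le_def, Fin.lt_def, Fin.ext_iff, Fin.val_rev] at a3 a4 a5 a6 ⊢
    split_ifs <;> omega
  rw [sum_sub_distrib, sum_sub_distrib, sum_add_distrib, sum_add_distrib, h0, h1, h2, h3, h3] at h4
  linarith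

end Exp

open Exp in
theorem exp : EXPStmt := by
  intro g e he
  have hm : (mid g).1 = g := rfl
  refine ⟨low he (by omega), ?_, fun hg => ?_, fun i hi => ?_,
    fun r t hr ht => ps_le he r (mid g) t hr le_rfl ht⟩
  · have h1 := sym_sum univ (fun p q => e p + e q) fun p q => add_comm _ _
    have h2 := sum_up fun p q => e p + e q
    have h3 := all_zero he
    have h4 : ∑ p, (e p + e p) = 0 := by rw [sum_add_distrib, sum_odd he.2, add_zero]
    beta_reduce at h1 h2
    omega
  · have h1 := key he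
    have h2 := sum_up fun p q => max (e p + e q) 0
    have h3 := sum_sup fun p q => max (e p + e q) 0
    have h4 := diag he
    have h5 : max (e (Fin.rev 1) + e (Fin.rev 0)) 0
        ≤ ∑ x ∈ sup (2 * g + 2), max (e x.1 + e x.2) 0 :=
      single_le_sum (f := fun x : Fin (2 * g + 2) × Fin (2 * g + 2) => max (e x.1 + e x.2) 0)
        (a := (Fin.rev 1, Fin.rev 0)) (fun _ _ => le_max_right ..) (mem_filter.2 ⟨mem_univ _, Fin.rev_lt_rev.2 Fin.zero_lt_one⟩)
    have h6 := low he (i := 1) (by simp; omega)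
    rw [he.2, he.2] at h5
    unfold Pp at h1 ⊢
    beta_reduce at h2 h3
    omega
  · have := ps_le he 0 i 0 (Fin.zero_le _) hi (by omega)
    simp only [Fin.val_zero, Nat.cast_zero, mul_zero, zero_mul] at this
    linarith

end Pool.Agent.MP_a43263_nt.VC
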