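import Mathlib.LinearAlgebra.Matrix.AbsoluteValue
import Pool.Agent.MP_a43263_nt.VV.Face
import Pool.Agent.MP_a43263_nt.UC.Maj
import Pool.Agent.MP_a43263_nt.UV.Count
import Pool.Agent.MP_a43263_nt.UC.Core
import Pool.Agent.MP_a43263_nt.U99.Fc
import Pool.Agent.MP_a43263_nt.UV.Nbr

/-! From the count for reduced representatives to the count of binary forms. -/

namespace Pool.Agent.MP_a43263_nt.VC

open Polynomial Matrix Finset Filter UC
open Pool.Agent.MP_a43263_nt.UV (zK)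
open VV (nz mK)

namespace Fn

lemma nz_comp (K : Type) [Field K] {f : ℤ[X]} (h : 1 ≤ f.natDegree) :
    (zK (nz f) K).comp (C (f.leadingCoeff : K) * X) =
      C ((f.leadingCoeff : K) ^ (f.natDegree - 1)) * zK f K := by
  have := integralNormalization_eval₂_leadingCoeff_mul h (C.comp (Int.castRingHom K)) (X : K[X])
  rw [← eval₂_map, ← eval₂_map, eval₂_C_X] at this
  rw [C_pow]
  exact this

lemma irr_comp {K : Type} [Field K] {a : K} (ha : a ≠ 0) {p : K[X]} :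
    Irreducible (p.comp (C a * X)) ↔ Irreducible p := by
  have := invertibleOfNonzero ha
  rw [← MulEquiv.irreducible_iff (x := p) (algEquivCMulXAddC a 0), algEquivCMulXAddC_apply,
    comp_eq_aeval]
  simp

lemma typ {g q : ℕ} [Fact q.Prime] {f : ℤ[X]} (hf : f.natDegree = 2 * g + 2) (h : VV.Ty g q f) :
    (f.leadingCoeff : ZMod q) ≠ 0 ∧ ∃ h : (ZMod q)[X], Irreducible h ∧ h.natDegree = 2 * g ∧
      zK (nz f) (ZMod q) = (X - C 0) * (X - C (f.leadingCoeff : ZMod q)) * h := by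
  obtain ⟨c, h, hc, e, mo, ir, dg, -⟩ := h
  have m1 : (X * (X - 1) * h).Monic := (monic_X.mul (monic_X_sub_C 1)).mul mo
  have d1 : (X * (X - 1) * h).natDegree = 2 * g + 2 := by
    rw [← C_1, (monic_X.mul (monic_X_sub_C 1)).natDegree_mul mo, monic_X.natDegree_mul (monic_X_sub_C 1),
      natDegree_X, natDegree_X_sub_C, dg]
    ring
  have hl : (f.leadingCoeff : ZMod q) = c := by
    have := congrArg (coeff · (2 * g + 2)) e
    simp only [coeff_map, coeff_C_mul, eq_intCast] at this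
    rw [leadingCoeff, hf, this, ← d1, m1.coeff_natDegree, mul_one]
  have hi : c⁻¹ ≠ 0 := inv_ne_zero hc
  refine ⟨hl ▸ hc, C (c ^ (2 * g)) * h.comp (C c⁻¹ * X),
    (irreducible_isUnit_mul (isUnit_C.2 (pow_ne_zero _ hc).isUnit)).2 ((irr_comp hi).2 ir), ?_, ?_⟩
  · rw [natDegree_C_mul (pow_ne_zero _ hc), natDegree_comp, natDegree_C_mul_X _ hi, dg, mul_one]
  · have h1 := congrArg (comp · (C c⁻¹ * X)) (nz_comp (ZMod q) (f := f) (by omega))
    have h2 : (C c * C c⁻¹ : (ZMod q)[X]) = 1 := by rw [← C_mul, mul_inv_cancel₀ hc, C_1]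
    simp only [hl, e, hf, comp_assoc, mul_comp, C_comp, X_comp, sub_comp, one_comp] at h1
    rw [← mul_assoc, h2, one_mul, comp_X, show 2 * g + 2 - 1 = 2 * g + 1 by omega, pow_succ,
      C_mul] at h1
    rw [h1, hl, C_0]
    linear_combination (C (c ^ (2 * g)) * h.comp (C c⁻¹ * X) * X *
      ((C c * C c⁻¹ + 1) * X - C c)) * h2

lemma loc {g q : ℕ} {a : ZMod q} {F : (ZMod q)[X]} {A T : VV.Mat g ℤ} (hA : IsUnit A.det)
    (h : VV.St a F (mK A (ZMod q)) (mK (A * T) (ZMod q))) :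
    (mK T (ZMod q)).charpoly = F ∧ ∃ (x y : Fin (2 * g + 2) → ZMod q) (s : ZMod q), s ≠ 0 ∧
      mK T (ZMod q) *ᵥ x = 0 ∧ mK T (ZMod q) *ᵥ y = a • y ∧
      (x ⬝ᵥ mK A (ZMod q) *ᵥ x) * (y ⬝ᵥ mK A (ZMod q) *ᵥ y) = s ^ 2 := by
  obtain ⟨T', h1, h2⟩ := h
  have h3 : IsUnit (mK A (ZMod q)) := by
    rw [isUnit_iff_isUnit_det]
    have := (Int.castRingHom (ZMod q)).map_det A
    rw [RingHom.mapMatrix_apply] at this
    rw [← this]
    exact hA.map _
  have h4 : mK (A * T) (ZMod q) = mK A (ZMod q) * mK T (ZMod q) := Matrix.map_mul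
  rw [h4] at h1
  rw [← h3.mul_left_cancel h1]
  exact h2

lemma height {f : ℤ[X]} {n : ℕ} {ρ : ℝ} {Y : ℕ} (hn : 1 ≤ n) (hf : f.natDegree = n) (hρ : 0 ≤ ρ)
    (h : ∀ θ : ℂ, (zK f ℂ).eval θ = 0 → ‖θ‖ ≤ ρ) (hY : n * (ρ * |(f.leadingCoeff : ℝ)|) ≤ Y) :
    Ht n Y (nz f) := by
  intro k _ h2
  have h0 : f ≠ 0 := fun e => by rw [e, natDegree_zero] at hf; omega
  have hl : (f.leadingCoeff : ℂ) ≠ 0 := by exact_mod_cast leadingCoeff_ne_zero.2 h0
  have h3 := coeff_le_of_roots_le (f := Int.castRingHom ℂ) (B := ρ * |(f.leadingCoeff : ℝ)|) (n - k)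
    (monic_integralNormalization h0) (IsAlgClosed.splits _) fun z hz => by
      have h4 := congrArg (eval (z / f.leadingCoeff)) (nz_comp ℂ (f := f) (by omega))
      rw [eval_comp, eval_mul, eval_C, eval_X, mul_div_cancel₀ _ hl, (mem_roots'.1 hz).2, eval_mul,
        eval_C] at h4
      have h5 := h _ ((mul_eq_zero.1 h4.symm).resolve_left (pow_ne_zero _ hl))
      rwa [norm_div, div_le_iff₀ (norm_pos_iff.2 hl), Complex.norm_intCast] at h5
  rw [coeff_map, eq_intCast, Complex.norm_intCast, natDegree_integralNormalization, hf,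
    Nat.sub_sub_self h2, Nat.choose_symm h2] at h3
  have h6 : (n.choose k : ℝ) ≤ (n : ℝ) ^ k := by exact_mod_cast Nat.choose_le_pow n k
  have h7 : |(((nz f).coeff (n - k) : ℤ) : ℝ)| ≤ (Y : ℝ) ^ k :=
    calc _ ≤ (ρ * |(f.leadingCoeff : ℝ)|) ^ k * (n : ℝ) ^ k := h3.trans (by gcongr)
      _ = (n * (ρ * |(f.leadingCoeff : ℝ)|)) ^ k := by ring
      _ ≤ _ := by gcongr
  exact_mod_cast h7

/-- The distance to the deepest point of the cusp. -/
lemma cusp (g κ m : ℕ) : ∃ M : ℝ, 0 < M ∧ ∀ (k D : ℕ) (e : Fin (2 * g + 2) → ℤ)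
    (A T γ γ' : Mz (2 * g + 2)), 3 * κ + 2 * m + 2 ≤ k → γ * γ' = 1 → Ex e → 2 ^ k ≤ 2 ^ κ * D →
    (∀ j : ℕ, Box ((κ : ℤ) + j * k) e (γᵀ * (A * T ^ j) * γ)) → Mn D (γᵀ * (A * T) * γ) →
    VV.Cusp M D A T → (m : ℤ) ≤ k + 2 * e (mid g) := by
  refine ⟨(g + 1).factorial * 2 ^ ((g + 1) * (κ + m + κ * g)) + 1, by positivity,
    fun k D e A T γ γ' hk hγ he hD hB hM hC => not_lt.1 fun hlt => ?_⟩
  let lo : Fin (g + 1) → Fin (2 * g + 2) := fun i => ⟨i.1, by omega⟩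
  have hlo : ∀ i, e (lo i) ≤ e (mid g) := fun i => he.1 (Nat.lt_succ_iff.1 i.2)
  have hγ0 : γ.det ≠ 0 := left_ne_zero_of_mul_eq_one (by rw [← det_mul, hγ, det_one])
  have hli : LinearIndependent ℤ fun i => γᵀ (lo i) := by
    have h3 : LinearIndependent ℤ fun p => γᵀ p :=
      linearIndependent_rows_of_det_ne_zero (by rwa [det_transpose])
    exact h3.comp lo fun i j h => Fin.ext (congrArg Fin.val h :)
  have hD' : (2 : ℝ) ^ k ≤ 2 ^ κ * D := by exact_mod_cast hD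
  have h0 : Box (κ : ℤ) e (γᵀ * A * γ) := by simpa using hB 0
  have h1 : ∀ i j, |((γᵀ * (A * T) * γ) (lo i) (lo j) : ℝ)| ≤ 2 ^ (κ + m) := fun i j => by
    have := hB 1 (lo i) (lo j)
    rw [pow_one] at this
    refine this.trans ?_
    rw [← zpow_natCast]
    refine zpow_le_zpow_right₀ one_le_two ?_
    have := hlo i
    have := hlo j
    push_cast
    omega
  have h2 := hC (fun i => γᵀ (lo i)) hli (fun i j => by
      rw [← Red.entry]
      refine IrrX.zero_of_box h0 ?_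
      have := hlo i
      have := hlo j
      omega)
    (fun i j i' j' => by
      simp only [← Red.entry]
      refine sub_eq_zero.1 (Int.eq_zero_of_abs_lt_dvd (hM _ _ _ _) ?_)
      have a : (2 : ℝ) ^ κ * (2 ^ (κ + m) * 2 ^ (κ + m) + 2 ^ (κ + m) * 2 ^ (κ + m)) < 2 ^ k :=
        calc _ = (2 : ℝ) ^ (3 * κ + 2 * m + 1) := by ring
          _ < _ := pow_lt_pow_right₀ one_lt_two hk
      have b := lt_of_mul_lt_mul_left (a.trans_le hD') (by positivity)
      refine Int.cast_lt (R := ℝ) |>.1 (lt_of_le_of_lt ?_ b)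
      push_cast
      refine (abs_sub _ _).trans ?_
      rw [abs_mul, abs_mul]
      gcongr <;> exact h1 _ _)
  simp only [← Red.entry] at h2
  have h3 := det_le (abv := AbsoluteValue.abs) (x := (2 : ℝ) ^ (κ + g * k + m))
    (A := (Matrix.of fun i j => (γᵀ * (A * T ^ (g + 1)) * γ) (lo i) (lo j)).map
      (Int.castRingHom ℝ)) fun i j => by
      refine (hB (g + 1) (lo i) (lo j)).trans ?_
      rw [← zpow_natCast]
      refine zpow_le_zpow_right₀ one_le_two ?_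
      have := hlo i
      have := hlo j
      push_cast
      linarith
  rw [← RingHom.mapMatrix_apply, ← RingHom.map_det, Fintype.card_fin, nsmul_eq_mul] at h3
  have h4 := h2.trans h3
  set U : ℝ := (g + 1).factorial * 2 ^ ((g + 1) * (κ + m + κ * g)) with hU
  have hU0 : 0 < U := by positivity
  have h5 : (U + 1) ^ 2 * (2 ^ k) ^ (g * (g + 1)) ≤ U * (2 ^ k) ^ (g * (g + 1)) :=
    calc _ ≤ (U + 1) ^ 2 * ((2 : ℝ) ^ κ * D) ^ (g * (g + 1)) := by gcongr
      _ = (2 ^ κ) ^ (g * (g + 1)) * ((U + 1) ^ 2 * (D : ℝ) ^ (g * (g + 1))) := by ring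
      _ ≤ (2 ^ κ) ^ (g * (g + 1)) * ((g + 1).factorial * (2 ^ (κ + g * k + m)) ^ (g + 1)) := by
        gcongr
      _ = _ := by rw [hU]; ring
  have h6 := le_of_mul_le_mul_right h5 (by positivity)
  nlinarith

end Fn

open Fn in
theorem count_of (hI : INVStmt) (hD : DENStmt) (hA : ABSStmt) : VV.COUNTStmt := by
  classical
  intro g ρ hg hρ
  obtain ⟨κ, hκ⟩ := red herm maj (2 * g + 2)
  set l : ℝ := 8 * (2 * g + 2 : ℕ) * ρ + 4 with hl
  have hl0 : 0 < l := by positivity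
  obtain ⟨c, hc⟩ : ∃ c : ℕ, l < 2 ^ c := pow_unbounded_of_one_lt _ one_lt_two
  obtain ⟨K, hK, hA⟩ := hA g (κ + c) (by omega)
  obtain ⟨q0, hD⟩ := hD g (by omega)
  refine ⟨q0, K * l ^ (2 * g + 3), by positivity, fun ε hε => ?_⟩
  obtain ⟨m, hA⟩ := hA (ε / l ^ (2 * g + 3)) (by positivity)
  obtain ⟨M, hM, hcu⟩ := Fn.cusp g (κ + c) m
  refine ⟨M, hM, fun Q f₀ hf₀ hQ => ?_⟩
  have hex : ∀ q : ℕ, ∃ h : ℤ[X], q ∈ Q → (f₀.leadingCoeff : ZMod q) ≠ 0 ∧
      Irreducible (zK h (ZMod q)) ∧ (zK h (ZMod q)).natDegree = 2 * g ∧ zK (nz f₀) (ZMod q) =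
        (X - C 0) * (X - C (f₀.leadingCoeff : ZMod q)) * zK h (ZMod q) := by
    intro q
    by_cases hq : q ∈ Q
    · have := Fact.mk (hQ q hq).1
      obtain ⟨h0, h, h1⟩ := typ hf₀ (hQ q hq).2.2
      obtain ⟨h', rfl⟩ := Polynomial.map_surjective (Int.castRingHom (ZMod q))
        (ZMod.ringHom_surjective _) h
      exact ⟨h', fun _ => ⟨h0, h1⟩⟩
    · exact ⟨0, fun h => absurd h hq⟩
  choose h hh using hex
  set N : ℕ := ∏ q ∈ Q, q with hN
  have hN0 : 0 < N := prod_pos fun q hq => (hQ q hq).1.pos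
  obtain ⟨D0, hD0⟩ := Int.eq_ofNat_of_zero_le
    (Int.emod_nonneg (-f₀.leadingCoeff) (Int.natCast_pos.2 hN0).ne')
  have hD1 : ∀ q ∈ Q, (D0 : ZMod q) = -(f₀.leadingCoeff : ZMod q) := fun q hq => by
    rw [← Int.cast_natCast, ← hD0, ← Int.cast_neg, ZMod.intCast_eq_intCast_iff]
    exact (Int.mod_modEq _ _).of_dvd (Int.natCast_dvd_natCast.2 (dvd_prod_of_mem _ hq))
  obtain ⟨k0, hA⟩ := hA _ _ N D0 (hI.2 _ Q (fun _ => 0) (fun _ => f₀.leadingCoeff) h)
    (by positivity) (hD Q _ _ h fun q hq => ⟨(hQ q hq).1, (hQ q hq).2.1,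
      by simpa using (hh q hq).1.symm, (hh q hq).2.1, (hh q hq).2.2.1⟩) hN0
    (Nat.Coprime.prod_right fun q hq => ((Nat.Prime.coprime_iff_not_dvd (hQ q hq).1).2 fun d =>
      (hh q hq).1 (neg_eq_zero.1 ((hD1 q hq).symm.trans ((ZMod.natCast_eq_zero_iff _ _).2 d)))).symm)
  filter_upwards [eventually_ge_atTop ((2 : ℝ) ^ (k0 + (3 * (κ + c) + 2 * m + 2)))] with Z hZ F hF
  have hZ1 : 1 ≤ Z := le_trans (one_le_pow₀ one_le_two) hZ
  set Y : ℕ := ⌈(2 * g + 2 : ℕ) * (ρ * (2 * Z))⌉₊ with hY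
  have hY1 : (2 * g + 2 : ℕ) * (ρ * (2 * Z)) ≤ Y := Nat.le_ceil _
  have hY2 : (Y : ℝ) < (2 * g + 2 : ℕ) * (ρ * (2 * Z)) + 1 := Nat.ceil_lt_add_one (by positivity)
  have hY3 : 2 * Z ≤ Y := by
    refine le_trans ?_ hY1
    have : (1 : ℝ) ≤ (2 * g + 2 : ℕ) := by exact_mod_cast Nat.le_add_left 1 (2 * g + 1)
    nlinarith [mul_le_mul this hρ zero_le_one (by positivity)]
  obtain ⟨j, hj1, hj2⟩ := exists_nat_pow_near (x := (2 * Y : ℝ)) (by linarith) one_lt_two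
  have hk1 : (2 : ℝ) ^ (j + 1) ≤ l * Z := by
    rw [pow_succ, hl]
    nlinarith
  have hk2 : k0 + (3 * (κ + c) + 2 * m + 2) ≤ j + 1 :=
    (pow_le_pow_iff_right₀ one_lt_two).1 (by linarith : (2 : ℝ) ^ _ ≤ 2 ^ (j + 1))
  have hneg : ∀ f ∈ F, (f.leadingCoeff.natAbs : ℤ) = -f.leadingCoeff := fun f hf => by
    have a := (hF f hf).1
    refine Int.ofNat_natAbs_of_nonpos (not_lt.1 fun p => ?_)
    have e : JC.fK (zK f ℚ) ℝ = zK f ℝ :=
      (Polynomial.map_map ..).trans (congrArg f.map (RingHom.ext_int _ _))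
    have inj := (Int.castRingHom ℝ).injective_int
    obtain ⟨x, hx⟩ := ((tendsto_atTop_of_leadingCoeff_nonneg (zK f ℝ)
      (by rw [degree_map_eq_of_injective inj, ← natDegree_pos_iff_degree_pos, a.deg]; omega)
      (by rw [leadingCoeff_map_of_injective inj]; simpa using p.le)).eventually_gt_atTop 0).exists
    exact lt_asymm hx (e ▸ a.neg x)
  have hlc : ∀ f ∈ F, (f.leadingCoeff : ℚ) ≠ 0 := fun f hf => by
    exact_mod_cast (hF f hf).1.sf.ne_zero
  have hmain := hA (j + 1) (F.image fun f => (f.leadingCoeff.natAbs, nz f)) (by omega) fun x hx => by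
    obtain ⟨f, hf, rfl⟩ := mem_image.1 hx
    obtain ⟨a, z1, z2, rt, cl, A, T, hR, hS, hC⟩ := hF f hf
    have ab : |(f.leadingCoeff : ℝ)| = (f.leadingCoeff.natAbs : ℝ) := by
      rw [← Int.cast_abs, ← Int.natCast_natAbs, Int.cast_natCast]
    have ir : Irr (nz f) := by
      refine (irr_comp (hlc f hf)).1 ?_
      rw [nz_comp ℚ (by rw [a.deg]; omega)]
      exact (irreducible_isUnit_mul (isUnit_C.2 (pow_ne_zero _ (hlc f hf)).isUnit)).2 a.irr
    have hP : Pair A T := ⟨hR.sa, hR.det, hR.sb⟩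
    obtain ⟨γ, γ', e, hγ, he, hB⟩ := hκ Y (j + 1) A T hP (hR.ch ▸ ir)
      (hR.ch ▸ height (by omega) a.deg (by linarith) rt (le_trans (by gcongr) hY1))
      (by exact_mod_cast hj2.le)
    have hB' : ∀ i : ℕ, Box (((κ + c : ℕ) : ℤ) + i * (j + 1 : ℕ)) e
        (γᵀ * A * γ * (γ' * T * γ) ^ i) := fun i => UC.Abs.box_mono (hB i) (by push_cast; omega)
    have d1 : 2 ^ (j + 1) ≤ 2 ^ (κ + c) * f.leadingCoeff.natAbs := by
      have : (2 : ℝ) ^ (j + 1) ≤ 2 ^ (κ + c) * f.leadingCoeff.natAbs := by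
        refine hk1.trans (mul_le_mul (hc.le.trans ?_) (ab ▸ z1) (by linarith) (by positivity))
        exact pow_le_pow_right₀ one_le_two (by omega)
      exact_mod_cast this
    have d2 : f.leadingCoeff.natAbs ≤ 2 ^ (j + 1) := by
      have : (f.leadingCoeff.natAbs : ℝ) ≤ 2 ^ (j + 1) := by linarith [ab ▸ z2]
      exact_mod_cast this
    have mn : Mn f.leadingCoeff.natAbs (γᵀ * A * γ * (γ' * T * γ)) :=
      hI.1 _ _ A T γ γ' hγ fun p q p' q' => Int.natAbs_dvd.2 (hR.rk p q p' q')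
    obtain ⟨hP', hT'⟩ := chg.1 _ A T γ γ' hγ hP
    have hL : Loc Q (fun _ => 0) (fun _ => f₀.leadingCoeff) h A T := fun q hq => by
      obtain ⟨h1, x, y, s, h2, h3, h4⟩ := loc hR.det (hS q hq)
      exact ⟨by rw [h1, (hh q hq).2.2.2, Int.cast_zero], x, y, s, h2, h3.trans (by simp), h4⟩
    refine ⟨?_, ir, e, _, _, he, hP', hT'.trans hR.ch, hI.2 _ Q _ _ h A T γ γ' hγ hL,
      by simpa using hB' 0, ⟨Int.squarefree_natAbs.2 a.sf, d1, d2, hP'.2.2,
        by simpa using hB' 1, mn⟩, hcu _ _ e A T γ γ' (by omega) hγ he d1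
        (fun i => Chg.mulp (A := A) (T := T) hγ i ▸ hB' i) (Chg.mul1 (A := A) (T := T) hγ ▸ mn)
        (ab ▸ hC)⟩
    rw [Nat.modEq_iff_dvd, hN]
    push_cast
    refine Finset.prod_dvd_of_coprime (fun p hp q hq ne => Nat.isCoprime_iff_coprime.2
      ((Nat.coprime_primes (hQ p hp).1 (hQ q hq).1).2 ne)) fun q hq => ?_
    rw [← ZMod.intCast_zmod_eq_zero_iff_dvd, ← Int.natCast_natAbs, hneg f hf]
    push_cast
    rw [hD1 q hq, cl q hq]
    ring
  rw [card_image_of_injOn fun f hf f' hf' e => ?_] at hmain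
  · refine hmain.trans ?_
    have e1 : K * ((4 / 5) ^ Q.card / (N : ℝ) ^ (2 * g + 2)) / N + ε / l ^ (2 * g + 3) =
        (K * l ^ (2 * g + 3) * (4 / 5) ^ Q.card / (∏ q ∈ Q, (q : ℝ)) ^ (2 * g + 3) + ε) /
          l ^ (2 * g + 3) := by
      rw [← Nat.cast_prod, ← hN]
      field_simp
      ring
    rw [e1, div_mul_eq_mul_div, mul_div_assoc, ← div_pow]
    have : (2 : ℝ) ^ (j + 1) / l ≤ Z := by rwa [div_le_iff₀' hl0]
    gcongr
  · simp only [Prod.mk.injEq] at e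
    have e1 : f.leadingCoeff = f'.leadingCoeff :=
      neg_injective ((hneg f hf).symm.trans (e.1 ▸ hneg f' hf'))
    have e2 := nz_comp ℚ (f := f) (by rw [(hF f hf).1.deg]; omega)
    rw [e.2, e1, nz_comp ℚ (by rw [(hF f' hf').1.deg]; omega), (hF f hf).1.deg,
      (hF f' hf').1.deg] at e2
    exact (map_injective _ (Int.castRingHom ℚ).injective_int (mul_left_cancel₀
      (C_ne_zero.2 (pow_ne_zero _ (hlc f' hf'))) e2)).symm

end Pool.Agent.MP_a43263_nt.VC
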