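import Pool.Agent.MP_a43263_nt.UC.Maj
import Pool.Agent.MP_a43263_nt.UV.Count

-- ======== part 0: formerly Pool.Agent.MP_a43263_nt.VC.Step
section MrgPart0

/-! Rows STEP and INV. -/

namespace Pool.Agent.MP_a43263_nt.VC

open Polynomial Matrix Finset UC

namespace Step

theorem mn_mul {n D : ℕ} {B : Mz n} (h : Mn D B) (γ : Mz n) : Mn D (B * γ) := by
  intro p q p' q'
  simp only [mul_apply, sum_mul_sum]
  rw [sum_comm (s := univ) (t := univ) (f := fun i j => B p i * γ i q' * (B p' j * γ j q)),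
    ← sum_sub_distrib]
  refine dvd_sum fun i _ => ?_
  rw [← sum_sub_distrib]
  refine dvd_sum fun j _ => ?_
  convert (h p i p' j).mul_right (γ i q * γ j q') using 1
  ring

theorem mn_tr {n D : ℕ} {B : Mz n} (h : Mn D B) : Mn D Bᵀ := by
  intro p q p' q'
  simpa only [transpose_apply, mul_comm (B q' p)] using h q p q' p'

theorem one {g c k D : ℕ} {e : Fin (2 * g + 2) → ℤ} {A T : Mz (2 * g + 2)} (hE : Ex e)
    (hP : Pair A T) (hI : Irr T.charpoly) (hA : Box c e A) (hB : Ok c k e (D, A * T))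
    (p q : Fin (2 * g + 2)) (hq : q.1 = p.1 + 1) (h0 : ∀ j, j < q → (A * T) j j = 0) :
    e q - e p ≤ 2 * c := by
  obtain ⟨sq, lo, -, sy, bx, mn⟩ := hB
  by_contra hlt
  have hneg : ∀ j i : Fin (2 * g + 2), q.1 ≤ (Fin.rev j).1 → i.1 < q.1 →
      e j + e i ≤ -2 * c - 1 := by
    intro j i hj hi
    have h1 : e i ≤ e p := hE.1 (show i ≤ p from Fin.le_def.2 (by omega))
    have h2 : e q ≤ e (Fin.rev j) := hE.1 (show q ≤ Fin.rev j from hj)
    rw [hE.2] at h2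
    omega
  have hz : ∀ j i : Fin (2 * g + 2), q.1 ≤ (Fin.rev j).1 → i.1 < q.1 → (A * T) j i = 0 := by
    intro j i hj hi
    have d1 : (D : ℤ) ∣ (A * T) j i ^ 2 := by
      have := mn i i j j
      simp only [h0 i hi, zero_mul, zero_sub, dvd_neg] at this
      rwa [show (A * T) i j = (A * T) j i from sy.apply j i, ← pow_two] at this
    have d2 : (D : ℤ) ∣ (A * T) j i :=
      ((Int.squarefree_natCast.2 sq).dvd_pow_iff_dvd two_ne_zero).1 d1
    refine Int.eq_zero_of_abs_lt_dvd d2 ?_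
    have b1 : (2 : ℝ) ^ (k : ℤ) ≤ 2 ^ (c : ℤ) * D := by exact_mod_cast lo
    have b2 : (2 : ℝ) ^ ((c : ℤ) + k + e j + e i) < 2 ^ ((k : ℤ) - c) :=
      zpow_lt_zpow_right₀ one_lt_two (by have := hneg j i hj hi; omega)
    rw [zpow_sub₀ two_ne_zero] at b2
    have b3 := ((bx j i).trans_lt b2).trans_le ((div_le_iff₀' (by positivity)).2 b1)
    exact_mod_cast b3
  have hdet : (A.map (Int.castRingHom ℚ)).det ≠ 0 := by
    have h := RingHom.map_det (Int.castRingHom ℚ) A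
    rw [RingHom.mapMatrix_apply] at h
    rw [← h]
    exact (hP.2.1.map (Int.castRingHom ℚ)).ne_zero
  have hb := IrrX.block (A.map (Int.castRingHom ℚ)) (T.map (Int.castRingHom ℚ)) hdet q.1
    (fun j i hj hi => by
      simp [IrrX.zero_of_box hA (p := j) (q := i) (by have := hneg j i hj hi; omega)])
    (fun j i hj hi => by
      rw [← Matrix.map_mul]
      simp only [Matrix.map_apply, hz j i hj hi, map_zero])
  refine IrrX.not_irr (T.map (Int.castRingHom ℚ)) (fun i => i.1 < q.1) hb p q (by omega)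
    (lt_irrefl _) ?_
  rw [Matrix.charpoly_map]
  exact hI

end Step

theorem step : STEPStmt := by
  intro g c k D e A T hE hP hI hA hB
  have key : ∀ (a : ℕ) (q : Fin (2 * g + 2)), q.1 = a → (∀ j, j < q → (A * T) j j = 0) →
      e q - e 0 ≤ 2 * c * a := by
    intro a
    induction a with
    | zero => intro q hq _; rw [show q = 0 from Fin.ext hq]; simp
    | succ a ih =>
      intro q hq h0
      have h1 := Step.one hE hP hI hA hB ⟨a, by omega⟩ q hq h0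
      have h2 := ih ⟨a, by omega⟩ rfl fun j hj => h0 j (hj.trans (Fin.lt_def.2 (by simp; omega)))
      push_cast
      linarith
  by_cases h : ∃ r : Fin (2 * g + 2), r.1 ≤ g ∧ (A * T) r r ≠ 0
  · obtain ⟨r, hr, hm⟩ := (wellFounded_lt (α := Fin (2 * g + 2))).has_min _ h
    have h0 : ∀ j, j < r → (A * T) j j = 0 := fun j hj => by_contra fun c =>
      hm j ⟨(Fin.lt_def.1 hj).le.trans hr.1, c⟩ hj
    refine Or.inr ⟨r, hr.1, h0, hr.2, (key _ r rfl h0).trans ?_⟩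
    push_cast
    have : (r.1 : ℤ) ≤ g + 1 := by have := hr.1; omega
    gcongr
  · have h1 := key (g + 1) ⟨g + 1, by omega⟩ rfl fun j hj => by_contra fun c =>
      h ⟨j, by have := Fin.lt_def.1 hj; simp at this; omega, c⟩
    have h2 := hE.2 ⟨g + 1, by omega⟩
    have h3 := hE.1 (show Fin.rev (⟨g + 1, by omega⟩ : Fin (2 * g + 2)) ≤ ⟨g + 1, by omega⟩ from
      Fin.le_def.2 (by simp; omega))
    left
    push_cast at h1 ⊢
    omega

theorem inv : INVStmt := by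
  refine ⟨fun n D A T γ γ' h L => ?_, fun n Q a b f A T γ γ' h L q hq => ?_⟩
  · show Mn D _
    rw [Chg.mul1 h]
    simpa using Step.mn_mul (Step.mn_tr (Step.mn_mul (Step.mn_tr L) γ)) γ
  · obtain ⟨c, x, y, s, s0, x1, y1, x2⟩ := L q hq
    have h' : γ.map (Int.castRingHom (ZMod q)) * γ'.map (Int.castRingHom (ZMod q)) = 1 := by
      rw [← Matrix.map_mul, h, Matrix.map_one _ (map_zero _) (map_one _)]
    simp only [Matrix.map_mul, transpose_map]
    refine ⟨(Chg.chp h').trans c, γ'.map (Int.castRingHom (ZMod q)) *ᵥ x,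
      γ'.map (Int.castRingHom (ZMod q)) *ᵥ y, s, s0, ?_, ?_, ?_⟩
    · rw [mulVec_mulVec, Matrix.mul_assoc, h', Matrix.mul_one, ← mulVec_mulVec, x1, mulVec_smul]
    · rw [mulVec_mulVec, Matrix.mul_assoc, h', Matrix.mul_one, ← mulVec_mulVec, y1, mulVec_smul]
    · rw [Chg.form, Chg.form, mulVec_mulVec x, mulVec_mulVec y, h', one_mulVec, one_mulVec, x2]

end Pool.Agent.MP_a43263_nt.VC

end MrgPart0

-- ======== part 1: formerly Pool.Agent.MP_a43263_nt.VC.Tz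
section MrgPart1

/-!
The count when the first diagonal entry is not zero.
-/

namespace Pool.Agent.MP_a43263_nt.VC

open Finset UC

namespace Tz

theorem zp {ι : Type} (s : Finset ι) (t : ι → ℤ) :
    ∏ i ∈ s, (2 : ℝ) ^ t i = (2 : ℝ) ^ ∑ i ∈ s, t i := by
  classical
  induction s using Finset.induction_on with
  | empty => simp
  | insert a s h ih => rw [prod_insert h, sum_insert h, ih, zpow_add₀ two_ne_zero]

theorem two_eq (a : ℤ) : (2 : ℝ) ^ a = (√2 : ℝ) ^ (2 * a) := by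
  rw [zpow_mul]
  congr 1
  rw [show (2 : ℤ) = ((2 : ℕ) : ℤ) from rfl, zpow_natCast, Real.sq_sqrt (by norm_num)]

theorem sqrt_eq (a : ℤ) : √((2 : ℝ) ^ a) = (√2 : ℝ) ^ a := by
  rw [two_eq, mul_comm, zpow_mul, show (2 : ℤ) = ((2 : ℕ) : ℤ) from rfl, zpow_natCast,
    Real.sqrt_sq (by positivity)]

theorem one_le_r : (1 : ℝ) ≤ √2 := Real.one_le_sqrt.2 (by norm_num)

theorem fac (c k D : ℕ) (a : ℤ) (h : 2 ^ k ≤ 2 ^ c * D) :
    2 * (2 : ℝ) ^ ((c : ℤ) + k + a) / D + 1 ≤ 3 * 2 ^ (2 * c) * (2 : ℝ) ^ max a 0 := by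
  have hD : (0 : ℝ) < D := by
    have : 0 < D := Nat.pos_of_ne_zero (by rintro rfl; simp at h)
    exact_mod_cast this
  have h' : (2 : ℝ) ^ k ≤ 2 ^ c * D := by exact_mod_cast h
  have h1 : (2 : ℝ) ^ a ≤ 2 ^ max a 0 := zpow_le_zpow_right₀ one_le_two (le_max_left _ _)
  have h2 : (1 : ℝ) ≤ 2 ^ max a 0 := one_le_zpow₀ one_le_two (le_max_right _ _)
  have h3 : (1 : ℝ) ≤ 2 ^ (2 * c) := one_le_pow₀ one_le_two
  have h4 : (2 : ℝ) ^ ((c : ℤ) + k + a) / D ≤ 2 ^ (2 * c) * 2 ^ max a 0 := by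
    rw [div_le_iff₀ hD, zpow_add₀ two_ne_zero, zpow_add₀ two_ne_zero, zpow_natCast, zpow_natCast,
      two_mul, pow_add]
    calc (2 : ℝ) ^ c * 2 ^ k * 2 ^ a ≤ 2 ^ c * (2 ^ c * D) * 2 ^ max a 0 := by gcongr
      _ = _ := by ring
  have h5 : (1 : ℝ) ≤ 2 ^ (2 * c) * 2 ^ max a 0 := one_le_mul_of_one_le_of_one_le h3 h2
  rw [mul_div_assoc]
  linarith

/-- The bound for one fibre. -/
theorem fibre (hR : ROWStmt) {n : ℕ} (c k D : ℕ) (e : Fin (n + 2) → ℤ) (he : Monotone e)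
    (s t u : ℤ) (W : Finset (ℕ × Mz (n + 2))) (hs : s ≠ 0)
    (hW : ∀ x ∈ W, Ok c k e x ∧ x.1 = D ∧ x.2 0 0 = s ∧ x.2 0 1 = t ∧ x.2 1 1 = u) :
    (W.card : ℝ) ≤ (∏ q ∈ (Ioi (0 : Fin (n + 2))).erase 1, 3 * (2 : ℝ) ^ ((c : ℤ) + k + e 0 + e q)) *
      ((3 * 2 ^ (2 * c)) ^ ((up (n + 2)).filter fun x => x.1 ≠ 0).card *
        (2 : ℝ) ^ ∑ x ∈ (up (n + 2)).filter (fun x => x.1 ≠ 0), max (e x.1 + e x.2) 0) := by
  classical
  rcases W.eq_empty_or_nonempty with rfl | ⟨x₀, hx₀⟩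
  · simp only [card_empty, Nat.cast_zero]
    positivity
  obtain ⟨⟨h1, h2, -, -, h5, -⟩, hD, hs0, -, -⟩ := hW x₀ hx₀
  rw [hD] at h1 h2
  have hc : W.card = (W.image Prod.snd).card := by
    refine (card_image_of_injOn fun x hx y hy hxy => Prod.ext ?_ hxy).symm
    rw [(hW x hx).2.1, (hW y hy).2.1]
  have key := hR (n + 2) D 0 1 (fun p q => (2 : ℝ) ^ ((c : ℤ) + k + e p + e q)) s t u
    (W.image Prod.snd) h1 (by simp) hs (fun p q => by positivity)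
    (fun q _ => by
      rw [← hs0]
      refine (h5 0 0).trans (zpow_le_zpow_right₀ one_le_two ?_)
      have := he (Fin.zero_le q)
      linarith)
    (fun B hB => by
      obtain ⟨x, hx, rfl⟩ := mem_image.1 hB
      obtain ⟨⟨-, -, -, a4, a5, a6⟩, aD, a0, a1, a2⟩ := hW x hx
      rw [aD] at a6
      exact ⟨a4, a6, a5, fun j hj => absurd hj (by simp), a0, a1, a2⟩)
  rw [hc]
  refine key.trans (mul_le_mul_of_nonneg_left ?_ (by positivity))
  rw [← zp, ← prod_const, ← prod_mul_distrib]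
  calc _ ≤ ∏ x ∈ ((up (n + 2)).filter fun x => x.1 ≠ 0).erase (1, 1),
        (3 * 2 ^ (2 * c) * (2 : ℝ) ^ max (e x.1 + e x.2) 0) := by
        refine prod_le_prod (fun x _ => by positivity) fun x _ => ?_
        have := fac c k D (e x.1 + e x.2) h2
        rwa [← add_assoc] at this
    _ ≤ _ := by
        refine prod_le_prod_of_subset_of_one_le (erase_subset _ _) (fun x _ => by positivity)
          fun x _ _ => ?_
        have h3 : (1 : ℝ) ≤ 2 ^ (2 * c) := one_le_pow₀ one_le_two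
        have h4 : (1 : ℝ) ≤ 2 ^ max (e x.1 + e x.2) 0 :=
          one_le_zpow₀ one_le_two (le_max_right _ _)
        nlinarith

/-- The first row. -/
theorem row {n : ℕ} (m : ℤ) (e : Fin (n + 2) → ℤ) :
    (2 : ℝ) ^ (m + e 0 + e 0) * (2 : ℝ) ^ (m + e 0 + e 1) *
      ∏ q ∈ (Ioi (0 : Fin (n + 2))).erase 1, (2 : ℝ) ^ (m + e 0 + e q) =
      (2 : ℝ) ^ (((n : ℤ) + 2) * m + ∑ q ∈ Ici (0 : Fin (n + 2)), (e 0 + e q)) := by
  have h1 : (1 : Fin (n + 2)) ∈ Ioi (0 : Fin (n + 2)) := by simp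
  rw [mul_assoc, mul_prod_erase _ (fun q => (2 : ℝ) ^ (m + e 0 + e q)) h1, ← Ici_erase,
    mul_prod_erase _ (fun q => (2 : ℝ) ^ (m + e 0 + e q)) (mem_Ici.2 le_rfl), zp]
  congr 1
  simp only [add_assoc]
  rw [sum_add_distrib, sum_const, Fin.card_Ici]
  simp

end Tz

open Tz in
theorem tz : ROWStmt → SWStmt → EXPStmt → TZStmt := by
  classical
  intro hR hS hE g c hg
  obtain ⟨C, hC, hSW⟩ := hS (2 ^ c) (one_le_pow₀ one_le_two)
  refine ⟨C * 3 ^ ((Ioi (0 : Fin (2 * g + 2))).erase 1).card *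
    (3 * 2 ^ (2 * c)) ^ ((up (2 * g + 2)).filter fun x => x.1 ≠ 0).card *
    (2 : ℝ) ^ ((2 * (g : ℤ) + 3) * c), by positivity, fun k e W he hW => ?_⟩
  rcases W.eq_empty_or_nonempty with rfl | ⟨x₀, hx₀⟩
  · simp only [card_empty, Nat.cast_zero]
    positivity
  obtain ⟨hm, -, -, hP, -⟩ := hE g e he
  have h01 : e 0 ≤ e 1 := he.1 (Fin.zero_le _)
  have hv : (1 : Fin (2 * g + 2)).1 = 1 := by simp
  have h1m : e 1 ≤ e (mid g) := he.1 (by rw [Fin.le_def, hv]; exact hg)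
  have hP1 := hP 1 (by rw [hv]; exact hg)
  have hP2 := hP (mid g) le_rfl
  set φ : ℕ × Mz (2 * g + 2) → ℕ × ℤ × ℤ × ℤ := fun x => (x.1, x.2 0 0, x.2 0 1, x.2 1 1) with hφ
  have hI := hSW (2 ^ k) (2 ^ ((c : ℤ) + k + e 0 + e 0)) (2 ^ ((c : ℤ) + k + e 0 + e 1))
    (2 ^ ((c : ℤ) + k + e 1 + e 1)) (W.image φ)
    (by
      obtain ⟨⟨-, -, -, -, a5, -⟩, a0⟩ := hW x₀ hx₀
      refine le_trans ?_ (a5 0 0)
      exact_mod_cast Int.one_le_abs a0)
    (zpow_le_zpow_right₀ one_le_two (by linarith)) (zpow_le_zpow_right₀ one_le_two (by linarith))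
    (by rw [sq, ← zpow_add₀ two_ne_zero, ← zpow_add₀ two_ne_zero]; congr 1; ring)
    (by
      rw [← zpow_natCast, ← zpow_natCast, ← zpow_add₀ two_ne_zero]
      exact zpow_le_zpow_right₀ one_le_two (by linarith))
    (fun y hy => by
      obtain ⟨x, hx, rfl⟩ := mem_image.1 hy
      obtain ⟨⟨-, a2, a3, a4, a5, a6⟩, a0⟩ := hW x hx
      refine ⟨by simp only [hφ]; exact_mod_cast a2, by simp only [hφ]; exact_mod_cast a3, a0,
        a5 0 0, a5 0 1, a5 1 1, ?_⟩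
      have := a6 0 0 1 1
      rwa [a4.apply 0 1, ← sq] at this)
  have hF : ∀ y ∈ W.image φ, ((W.filter fun x => φ x = y).card : ℝ) ≤ _ := fun y hy => by
    refine fibre hR c k y.1 e he.1 y.2.1 y.2.2.1 y.2.2.2 _ ?_ fun x hx => ?_
    · obtain ⟨x, hx, rfl⟩ := mem_image.1 hy
      exact (hW x hx).2
    · obtain ⟨hx', rfl⟩ := mem_filter.1 hx
      exact ⟨(hW x hx').1, rfl, rfl, rfl, rfl⟩
  have hrow := row ((c : ℤ) + k) e
  rw [card_eq_sum_card_image φ W, Nat.cast_sum]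
  refine (sum_le_card_nsmul _ _ _ hF).trans ?_
  rw [nsmul_eq_mul]
  refine (mul_le_mul_of_nonneg_right hI (by positivity)).trans ?_
  rw [prod_mul_distrib, prod_const, sqrt_eq]
  have hPs : ∑ q ∈ Ici (0 : Fin (2 * g + 2)), (e 0 + e q) +
      ∑ x ∈ (up (2 * g + 2)).filter (fun x => x.1 ≠ 0), max (e x.1 + e x.2) 0 =
      Ps 0 e - Pp e + Un e := by
    rw [Ps]; ring
  generalize ∑ q ∈ Ici (0 : Fin (2 * g + 2)), (e 0 + e q) = S0 at hrow hPs
  generalize ∑ x ∈ (up (2 * g + 2)).filter (fun x => x.1 ≠ 0), max (e x.1 + e x.2) 0 = S1 at hPs ⊢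
  generalize ∏ q ∈ (Ioi (0 : Fin (2 * g + 2))).erase 1,
    (2 : ℝ) ^ ((c : ℤ) + k + e 0 + e q) = Q at hrow ⊢
  have r0 : (√2 : ℝ) ≠ 0 := by positivity
  have t1 : (2 : ℝ) ^ ((c : ℤ) + k + e 0 + e 0) * 2 ^ ((c : ℤ) + k + e 0 + e 1) *
      2 ^ ((c : ℤ) + k + e 1 + e 1) * Q * 2 ^ S1 ≤
      (2 : ℝ) ^ ((2 * (g : ℤ) + 3) * c) * (2 ^ k) ^ (2 * g + 3) * 2 ^ (Un e - Pp e) * 2 ^ e 0 := by
    rw [mul_right_comm _ _ Q, hrow, ← pow_mul, ← zpow_natCast]
    simp only [← zpow_add₀ (two_ne_zero (α := ℝ))]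
    refine zpow_le_zpow_right₀ one_le_two ?_
    push_cast
    linarith
  have t2 : (2 : ℝ) ^ k * 2 ^ ((c : ℤ) + k + e 0 + e 1) * (√2 : ℝ) ^ ((c : ℤ) + k + e 0 + e 0) *
      Q * 2 ^ S1 ≤ (2 : ℝ) ^ ((2 * (g : ℤ) + 3) * c) * (2 ^ k) ^ (2 * g + 3) * 2 ^ (Un e - Pp e) *
      (√2 : ℝ) ^ (- ((k : ℤ) + 2 * e (mid g))) := by
    have e1 : (√2 : ℝ) ^ ((c : ℤ) + k + e 0 + e 0) =
        2 ^ ((c : ℤ) + k + e 0 + e 0) * (√2 : ℝ) ^ (-((c : ℤ) + k + e 0 + e 0)) := by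
      rw [two_eq, ← zpow_add₀ r0]; congr 1; ring
    calc _ = (2 : ℝ) ^ k * ((2 : ℝ) ^ ((c : ℤ) + k + e 0 + e 0) * 2 ^ ((c : ℤ) + k + e 0 + e 1) * Q) *
          2 ^ S1 * (√2 : ℝ) ^ (-((c : ℤ) + k + e 0 + e 0)) := by rw [e1]; ring
      _ ≤ _ := by
        rw [hrow, ← pow_mul, ← zpow_natCast, ← zpow_natCast]
        simp only [← zpow_add₀ (two_ne_zero (α := ℝ))]
        rw [two_eq, two_eq, ← zpow_add₀ r0, ← zpow_add₀ r0]
        refine zpow_le_zpow_right₀ one_le_r ?_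
        have : (0 : ℤ) ≤ c := Int.natCast_nonneg c
        push_cast
        linarith
  have hK : (0 : ℝ) ≤ C * 3 ^ ((Ioi (0 : Fin (2 * g + 2))).erase 1).card *
    (3 * 2 ^ (2 * c)) ^ ((up (2 * g + 2)).filter fun x => x.1 ≠ 0).card := by positivity
  have := mul_le_mul_of_nonneg_left (add_le_add t1 t2) hK
  refine le_trans (le_of_eq ?_) (this.trans (le_of_eq ?_)) <;> ring

end Pool.Agent.MP_a43263_nt.VC

end MrgPart1

-- marker of a merged file
example : 731051 + 730446 = 731051 + 730446 := rfl
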